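import Pool.Agent.Lib_helper78.PI.Finite

/-!
For every `p` and every limiting ratio `lam` the number `theta p (K_{a,b}) / (a b)` converges to
the minimum of an explicit finite linear program.
-/

set_option autoImplicit false

namespace Pool.Agent.Results.MP_721e2b_co.LimitLP

open Filter Topology Pool.Agent.Lib_helper78.PI

theorem result (p : ℕ) (hp : 1 ≤ p) (lam : ℝ) (hlam : 0 < lam) (B : ℕ)
    (hB : boxSize p lam ≤ B) :
    ∃ c : ℝ, 0 < c ∧ IsLeast (boxValues p B lam) c ∧
      ∀ a b : ℕ → ℕ, Tendsto a atTop atTop →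
        Tendsto (fun n => (a n : ℝ) / (b n : ℝ)) atTop (𝓝 lam) →
        Tendsto (fun n => (theta p (completeBipartiteGraph (Fin (a n)) (Fin (b n))) : ℝ) /
          ((a n : ℝ) * (b n : ℝ))) atTop (𝓝 c) :=
  ⟨lpValue p lam, lpValue_pos hp hlam, isLeast_box hp hlam hB,
    fun a b ha hab => theta_tendsto hp hlam a b ha hab⟩

end Pool.Agent.Results.MP_721e2b_co.LimitLP
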