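import Pool.Agent.Lib_helper78.PI.Closed2

/-!
The asymptotics of `theta p (K_{a,b})` in closed form for nearly balanced graphs.
-/

set_option autoImplicit false

namespace Pool.Agent.Results.MP_721e2b_co.NearBalanced

open Filter Topology Pool.Agent.Lib_helper78.PI

theorem result (p : ℕ) (hp : 2 ≤ p) (lam : ℝ) (h1 : 1 ≤ lam) (h2 : lam ≤ (p : ℝ) / (p - 1))
    (a b : ℕ → ℕ) (ha : Tendsto a atTop atTop)
    (hab : Tendsto (fun n => (a n : ℝ) / (b n : ℝ)) atTop (𝓝 lam)) :
    Tendsto (fun n => (theta p (completeBipartiteGraph (Fin (a n)) (Fin (b n))) : ℝ) /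
      ((a n : ℝ) * (b n : ℝ))) atTop (𝓝 (2 - ((p : ℝ) - 1) / p * lam - 1 / lam)) := by
  have h := theta_tendsto (p := p) (by omega) (by linarith : (0 : ℝ) < lam) a b ha hab
  rw [lp_near hp h1 h2] at h
  exact h

end Pool.Agent.Results.MP_721e2b_co.NearBalanced
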