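import Pool.Agent.Lib_helper78.PI.Closed2
import Pool.Agent.Lib_helper78.PI.TwoDefs

/-!
The asymptotics of `theta 2 (K_{a,b})` in closed form.
-/

set_option autoImplicit false

namespace Pool.Agent.Results.MP_721e2b_co.TwoClosedForm

open Filter Topology Pool.Agent.Lib_helper78.PI

theorem result (lam : ℝ) (hlam : 0 < lam) (a b : ℕ → ℕ) (ha : Tendsto a atTop atTop)
    (hab : Tendsto (fun n => (a n : ℝ) / (b n : ℝ)) atTop (𝓝 lam)) :
    Tendsto (fun n => (theta 2 (completeBipartiteGraph (Fin (a n)) (Fin (b n))) : ℝ) /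
      ((a n : ℝ) * (b n : ℝ))) atTop (𝓝 (gTwo (max lam lam⁻¹))) := by
  have h := theta_tendsto (p := 2) (by norm_num) hlam a b ha hab
  have key : lpValue 2 lam = gTwo (max lam lam⁻¹) := by
    rcases le_total 1 lam with h1 | h1
    · have h2 : lam⁻¹ ≤ lam := le_trans (inv_le_one_of_one_le₀ h1) h1
      rw [max_eq_left h2]
      exact lp_two h1
    · have h2 : 1 ≤ lam⁻¹ := (one_le_inv₀ hlam).mpr h1
      rw [max_eq_right (le_trans h1 h2), ← lpValue_inv (by norm_num) hlam]
      exact lp_two h2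
  rw [← key]
  exact h

end Pool.Agent.Results.MP_721e2b_co.TwoClosedForm
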