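import Mathlib
import Pool.Agent.Lib_helper61.PInt.Defs
import Pool.Agent.Lib_helper61.PInt.Final

/-!
# The `p`-intersection number of unbalanced complete bipartite graphs

For `p ≥ 1` we show `ϑ_p(K_{a,b}) = (1 + o(1)) g(a, b, p)` as `a → ∞` with `a / b` bounded away
from `0` and `∞`, where

  `g(a, b, p) = max {p u a b - (p - 1) (v a (a - 1) + w b (b - 1)) : (u, v, w) ∈ D}`

and `D` is one fixed convex set in `ℝ³`: all `u, v, w ≥ 0` with
`u i j - v i (i - 1) - w j (j - 1) ≤ 1` for all natural `i, j`.  By linear programming duality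
`g(a, b, p)` is asymptotically the minimum of `∑ x_{ij}` over all `x_{ij} ≥ 0` with
`∑ x_{ij} i j ≥ p a b`, `∑ x_{ij} i (i - 1) ≤ (p - 1) a ^ 2`, `∑ x_{ij} j (j - 1) ≤ (p - 1) b ^ 2`
(`x_{ij}` = number of cover sets with `i` vertices on the left and `j` on the right).

The lower bound holds for all `a, b`.  The matching upper bound is proved by an algebraic
construction: a symmetric family with dyadic weights is made integral by repeated halving (blow-up
by `F_q ^ E`, lines whose slopes have quadratic character `1`, labels with prescribed quadratic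
characters of differences), followed by a blow-up with lines over `ℤ / n`.
-/

set_option autoImplicit false

namespace Pool.Agent.Results.MP_721e2b_co.UniformAsymptotics

open Helper61.PInt

/-- `g(a, b, p) ≤ ϑ_p(K_{a,b})` for all `a, b`, and `ϑ_p(K_{a,b}) ≤ (1 + ε) g(a, b, p)` for all
large `a` and all `b` with `a / C ≤ b ≤ C a`. -/
theorem result :
    ∀ p : ℕ, 1 ≤ p →
      (∀ a b : ℕ, g a b p ≤ (theta p (completeBipartiteGraph (Fin a) (Fin b)) : ℝ)) ∧
      (∀ C ε : ℝ, 1 ≤ C → 0 < ε → ∃ N : ℕ, ∀ a b : ℕ, N ≤ a → (a : ℝ) ≤ C * b →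
        (b : ℝ) ≤ C * a →
        (theta p (completeBipartiteGraph (Fin a) (Fin b)) : ℝ) ≤ (1 + ε) * g a b p) :=
  fun _ hp => ⟨fun _ _ => g_le_theta hp, fun C ε hC hε => upper_uniform hp C ε hC hε⟩

end Pool.Agent.Results.MP_721e2b_co.UniformAsymptotics
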